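import Pool.Agent.Helper72.MK.Goals

open MeasureTheory Set Filter Topology
open scoped ENNReal Quaternion Pointwise
open Pool.Agent.Helper47.AQ Pool.Agent.Helper72.MK

noncomputable section

namespace Pool.Agent.Helper31.MK

theorem bip : BIPStmt := by
  classical
  intro ι _ K h z hz
  by_contra hcon
  have hc : Convex ℝ (K - K) := h.conv.sub h.conv
  have hcomp : IsCompact (K - K) := by
    have h9 : K - K = (fun q : (ι → ℝ) × (ι → ℝ) => q.1 - q.2) '' (K ×ˢ K) := by
      rw [Set.image_prod]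
      rfl
    rw [h9]
    exact (h.comp.prod h.comp).image (continuous_fst.sub continuous_snd)
  have hzn : z ∉ K - K := by
    intro hzm
    obtain ⟨x, hx, y, hy, hxy⟩ := Set.mem_sub.1 hzm
    exact hcon ⟨x, hx, y, hy, hxy.symm⟩
  obtain ⟨f, u, h1, h2⟩ := geometric_hahn_banach_closed_point hc hcomp.isClosed hzn
  obtain ⟨x0, hx0⟩ := h.nonempty
  have h0 : (0 : ι → ℝ) ∈ K - K := Set.mem_sub.2 ⟨x0, hx0, x0, hx0, sub_self x0⟩
  have hu : 0 < u := by
    have := h1 0 h0
    rwa [map_zero] at this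
  have hf : ∀ x : ι → ℝ, f x = ∑ i, f (Pi.single i 1) * x i := by
    intro x
    conv_lhs => rw [← Finset.univ_sum_single x]
    rw [map_sum]
    refine Finset.sum_congr rfl fun i _ => ?_
    have h3 : (Pi.single i (x i) : ι → ℝ) = x i • (Pi.single i (1 : ℝ) : ι → ℝ) := by
      funext j
      by_cases hj : j = i
      · subst hj
        simp
      · simp [Pi.single_eq_of_ne hj]
    rw [h3, map_smul, smul_eq_mul, mul_comm]
  have hp : (fun i => u⁻¹ * f (Pi.single i 1)) ∈ dpol K := by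
    intro x hx y hy
    have h4 := h1 (x - y) (Set.mem_sub.2 ⟨x, hx, y, hy, rfl⟩)
    rw [hf] at h4
    have h5 : ∑ i, (fun i => u⁻¹ * f (Pi.single i 1)) i * (x i - y i)
        = u⁻¹ * ∑ i, f (Pi.single i 1) * (x - y) i := by
      rw [Finset.mul_sum]
      exact Finset.sum_congr rfl fun i _ => by simp only [Pi.sub_apply]; ring
    rw [h5]
    calc u⁻¹ * ∑ i, f (Pi.single i 1) * (x - y) i ≤ u⁻¹ * u :=
          mul_le_mul_of_nonneg_left h4.le (inv_pos.2 hu).le
      _ = 1 := inv_mul_cancel₀ hu.ne'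
  have h6 := hz _ hp
  have h7 : ∑ i, (fun i => u⁻¹ * f (Pi.single i 1)) i * z i = u⁻¹ * f z := by
    rw [hf z, Finset.mul_sum]
    exact Finset.sum_congr rfl fun i _ => by ring
  rw [h7] at h6
  have h8 : u⁻¹ * u < u⁻¹ * f z := mul_lt_mul_of_pos_left h2 (inv_pos.2 hu)
  rw [inv_mul_cancel₀ hu.ne'] at h8
  linarith

end Pool.Agent.Helper31.MK
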